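import Pool.Agent.helper70.QSD.SpecC

/-! Project qsd (MP_7a3aac_co, helper70), row ACL: the ultrapower is algebraically closed of characteristic 2. -/

set_option linter.unusedVariables false

namespace Pool.Agent.helper70.QSD

open Pool.Agent.helper53.AU
open scoped Classical IntermediateField Polynomial

noncomputable section

theorem ACL_surj : Function.Surjective pr := by
  intro x
  induction x using Filter.Germ.inductionOn with
  | _ f => exact ⟨f, rfl⟩

theorem ACL : ACL_stmt := by
  constructor
  · apply IsAlgClosed.of_exists_root
    intro p hpm hpi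
    have hl : p ∈ Polynomial.lifts pr :=
      Polynomial.mem_lifts p |>.2 ⟨_, (Polynomial.map_surjective pr ACL_surj p).choose_spec⟩
    obtain ⟨q, hq1, hq2, hq3⟩ := Polynomial.lifts_and_natDegree_eq_and_monic hl hpm
    have hn : 1 ≤ q.natDegree := by
      rw [hq2]
      exact hpi.natDegree_pos
    have hroot : ∀ j : ℕ, ∃ c : kk, Polynomial.eval c (q.map (ej j)) = 0 := by
      intro j
      have h1 : (q.map (ej j)).degree ≠ 0 := by
        intro h0
        have h5 : (q.map (ej j)).natDegree = 0 :=
          Polynomial.natDegree_eq_zero_iff_degree_le_zero.2 (le_of_eq h0)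
        rw [hq3.natDegree_map] at h5
        omega
      exact IsAlgClosed.exists_root _ h1
    choose x hx using hroot
    refine ⟨pr x, ?_⟩
    have h2 : Polynomial.eval x q = 0 := by
      funext j
      have h3 := hx j
      rw [Polynomial.eval_map] at h3
      have h4 : Polynomial.eval₂ (ej j) (ej j x) q = ej j (Polynomial.eval x q) :=
        Polynomial.eval₂_at_apply (ej j) x
      exact h4.symm.trans h3
    rw [← hq1, Polynomial.eval_map, Polynomial.eval₂_at_apply, h2, map_zero]
  · apply CharTwo.of_one_ne_zero_of_two_eq_zero one_ne_zero
    have h1 : (2 : kk) = 0 := CharTwo.two_eq_zero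
    have h2 : (2 : ℕ → kk) = 0 := by
      funext j
      exact h1
    have h3 : pr 2 = pr 0 := by rw [h2]
    rw [map_zero, map_ofNat] at h3
    exact h3

end

end Pool.Agent.helper70.QSD
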