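import Pool.Agent.helper70.QSD.SpecC

/-! Project qsd (MP_7a3aac_co, helper70), row NUL: monic irreducible polynomials stay irreducible. -/

set_option linter.unusedVariables false

namespace Pool.Agent.helper70.QSD

open Pool.Agent.helper53.AU
open scoped Classical IntermediateField Polynomial

noncomputable section

/-- a point of a finitely generated nontrivial algebra over an algebraically closed field -/
theorem NUL_point (A T : Type) [Field A] [IsAlgClosed A] [CommRing T] [Nontrivial T] [Algebra A T]
    [Algebra.FiniteType A T] : ∃ g : T →+* A, ∀ a : A, g (algebraMap A T a) = a := by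
  obtain ⟨m, hm⟩ := Ideal.exists_maximal T
  let := Ideal.Quotient.field m
  have := finite_of_finite_type_of_isJacobsonRing A (T ⧸ m)
  have hb : Function.Bijective (algebraMap A (T ⧸ m)) := IsAlgClosed.algebraMap_bijective_of_isIntegral
  let e : A ≃+* (T ⧸ m) := RingEquiv.ofBijective (algebraMap A (T ⧸ m)) hb
  refine ⟨(e.symm : (T ⧸ m) →+* A).comp (Ideal.Quotient.mk m), fun a => ?_⟩
  have h1 : Ideal.Quotient.mk m (algebraMap A T a) = e a := rfl
  change e.symm (Ideal.Quotient.mk m (algebraMap A T a)) = a
  rw [h1, e.symm_apply_apply]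

/-- lifting a monic polynomial in two variables to a subring containing the coefficients -/
theorem NUL_lift {T B : Type} [CommRing T] [Nontrivial T] [CommRing B] [Nontrivial B] (v : T →+* B)
    (U : B[X][X]) (hU : U.Monic) (h : ∀ i j, (U.coeff i).coeff j ∈ Set.range v) :
    ∃ U' : T[X][X], mp2 v U' = U ∧ U'.natDegree = U.natDegree ∧ U'.Monic := by
  have hl : U ∈ Polynomial.lifts (Polynomial.mapRingHom v) := by
    rw [Polynomial.lifts_iff_coeff_lifts]
    intro i
    have h1 : U.coeff i ∈ Polynomial.lifts v := by
      rw [Polynomial.lifts_iff_coeff_lifts]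
      exact h i
    obtain ⟨w, hw⟩ := (Polynomial.mem_lifts _).1 h1
    exact ⟨w, hw⟩
  obtain ⟨q, h1, h2, h3⟩ := Polynomial.lifts_and_natDegree_eq_and_monic hl hU
  exact ⟨q, h1, h2, h3⟩

theorem NUL : NUL_stmt := by
  intro A B _ _ _ f P hPm hPi
  have hfm : (mp2 f P).Monic := hPm.map _
  rw [hfm.irreducible_iff_natDegree]
  have hPd := hPm.irreducible_iff_natDegree.1 hPi
  have hdeg : (mp2 f P).natDegree = P.natDegree := hPm.natDegree_map _
  constructor
  · intro h1
    rw [h1, Polynomial.natDegree_one] at hdeg
    exact hPd.1 ((hPm.natDegree_eq_zero).1 hdeg.symm)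
  · intro U V hU hV hUV
    let _ : Algebra A B := f.toAlgebra
    set S : Finset B := (U.support.biUnion fun i => (U.coeff i).coeffs) ∪
      (V.support.biUnion fun i => (V.coeff i).coeffs) with hS
    let T : Subalgebra A B := Algebra.adjoin A (S : Set B)
    have hft : Algebra.FiniteType A T := (Subalgebra.fg_iff_finiteType T).1 ⟨S, rfl⟩
    obtain ⟨g, hg⟩ := NUL_point A T
    let v : T →+* B := T.val
    have hv : Function.Injective v := Subtype.val_injective
    have hcoef : ∀ W : B[X][X], (∀ i ∈ W.support, ((W.coeff i).coeffs : Set B) ⊆ S) →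
        ∀ i j, (W.coeff i).coeff j ∈ Set.range v := by
      intro W hW i j
      by_cases h0 : (W.coeff i).coeff j = 0
      · rw [h0]
        exact ⟨0, map_zero v⟩
      · have hi : i ∈ W.support := by
          rw [Polynomial.mem_support_iff]
          intro h
          exact h0 (by rw [h, Polynomial.coeff_zero])
        have hj : (W.coeff i).coeff j ∈ (W.coeff i).coeffs := Polynomial.coeff_mem_coeffs h0
        exact ⟨⟨_, Algebra.subset_adjoin (hW i hi hj)⟩, rfl⟩
    obtain ⟨U', hU1, hU2, hU3⟩ := NUL_lift v U hU (hcoef U (by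
      intro i hi x hx
      exact Finset.mem_coe.2 (Finset.mem_union_left _ (Finset.mem_biUnion.2 ⟨i, hi, hx⟩))))
    obtain ⟨V', hV1, hV2, hV3⟩ := NUL_lift v V hV (hcoef V (by
      intro i hi x hx
      exact Finset.mem_coe.2 (Finset.mem_union_right _ (Finset.mem_biUnion.2 ⟨i, hi, hx⟩))))
    have hprod : U' * V' = mp2 (algebraMap A T) P := by
      have hvi : Function.Injective (Polynomial.mapRingHom v) := Polynomial.map_injective v hv
      apply Polynomial.map_injective _ hvi
      change mp2 v (U' * V') = mp2 v (mp2 (algebraMap A T) P)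
      have h1 : mp2 v (U' * V') = mp2 v U' * mp2 v V' := Polynomial.map_mul _
      rw [h1, hU1, hV1, hUV]
      change _ = Polynomial.map _ (Polynomial.map _ P)
      rw [Polynomial.map_map, Polynomial.mapRingHom_comp]
      rfl
    have hfin : mp2 g U' * mp2 g V' = P := by
      have h1 : mp2 g (U' * V') = mp2 g U' * mp2 g V' := Polynomial.map_mul _
      rw [← h1, hprod]
      change Polynomial.map _ (Polynomial.map _ P) = P
      rw [Polynomial.map_map, Polynomial.mapRingHom_comp]
      have h2 : g.comp (algebraMap A T) = RingHom.id A := RingHom.ext hg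
      rw [h2, Polynomial.mapRingHom_id, Polynomial.map_id]
    have := hPd.2 _ _ (hU3.map _) (hV3.map _) hfin
    rw [hU3.natDegree_map, hV3.natDegree_map, hU2, hV2] at this
    exact this

end

end Pool.Agent.helper70.QSD
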