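import Pool.Agent.helper70.QSD.SpecC

/-! Project qsd (MP_7a3aac_co, helper70), row PRE: a primitive element with an integral equation. -/

set_option linter.unusedVariables false

namespace Pool.Agent.helper70.QSD

open Pool.Agent.helper53.AU
open scoped Classical IntermediateField Polynomial

noncomputable section

/-- the statement over an integrally closed domain `R` with fraction field `K` -/
theorem PRE_core {R K Ω : Type} [CommRing R] [IsDomain R] [IsIntegrallyClosed R] [Field K]
    [Algebra R K] [IsFractionRing R K] [Field Ω] [IsAlgClosed Ω] [Algebra K Ω] [Algebra R Ω]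
    [IsScalarTower R K Ω] (Z : Finset Ω) (p : K[X]) (hp : p.Monic) (hps : p.Separable)
    (hZ : ∀ x : Ω, Polynomial.aeval x p = 0 ↔ x ∈ Z) :
    ∃ (z : Ω) (P : R[X]) (m : ℕ), z ∈ IntermediateField.adjoin K (Z : Set Ω) ∧ P.Monic ∧
      Irreducible P ∧ P.natDegree = m ∧ (∀ G : R[X], Polynomial.aeval z G = 0 ↔ P ∣ G) ∧
      (∀ x ∈ IntermediateField.adjoin K (Z : Set Ω), ∃ (G : R[X]) (h : R), h ≠ 0 ∧
        x * algebraMap R Ω h = Polynomial.aeval z G) ∧
      ∃ ρ : Fin m → Ω, Function.Injective ρ ∧
        (∀ i, ρ i ∈ IntermediateField.adjoin K (Z : Set Ω)) ∧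
        ∀ i, Polynomial.aeval (ρ i) P = 0 := by
  have hZr : (Z : Set Ω) = p.rootSet Ω := by
    ext x
    rw [Polynomial.mem_rootSet]
    simp [← hZ x, hp.ne_zero]
  have hsp : (p.map (algebraMap K Ω)).Splits := IsAlgClosed.splits _
  set F : IntermediateField K Ω := IntermediateField.adjoin K (Z : Set Ω) with hF
  have hsf : p.IsSplittingField K F := by
    rw [hF, hZr]
    exact IntermediateField.adjoin_rootSet_isSplittingField hsp
  have hfd : FiniteDimensional K F := Polynomial.IsSplittingField.finiteDimensional F p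
  have hgal : IsGalois K F := IsGalois.of_separable_splitting_field (p := p) hps
  obtain ⟨z0, hz0⟩ := Field.exists_primitive_element K F
  have hinj : Function.Injective (algebraMap R K) := IsFractionRing.injective R K
  have hinjΩ : Function.Injective (algebraMap R Ω) := by
    rw [IsScalarTower.algebraMap_eq R K Ω]
    exact (algebraMap K Ω).injective.comp hinj
  -- an integral multiple
  have halg : IsAlgebraic R (z0 : Ω) := by
    rw [IsFractionRing.isAlgebraic_iff R K Ω]
    exact ((Algebra.IsIntegral.isIntegral (R := K) z0).map F.val).isAlgebraic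
  obtain ⟨d, hd, hint⟩ := halg.exists_integral_multiple
  set z : Ω := d • (z0 : Ω) with hzdef
  have hdK : algebraMap R K d ≠ 0 := by
    intro h
    exact hd (hinj (by rw [h, map_zero]))
  have hzmul : z = algebraMap K Ω (algebraMap R K d) * (z0 : Ω) := by
    rw [hzdef, Algebra.smul_def, IsScalarTower.algebraMap_apply R K Ω]
  have hzF : z ∈ F := by
    rw [hzmul]
    exact F.mul_mem (F.algebraMap_mem _) z0.2
  set zF : F := ⟨z, hzF⟩ with hzFdef
  have hgen : IntermediateField.adjoin K ({zF} : Set F) = ⊤ := by
    rw [eq_top_iff, ← hz0, IntermediateField.adjoin_simple_le_iff]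
    have hz0eq : z0 = (algebraMap K F (algebraMap R K d))⁻¹ * zF := by
      apply Subtype.ext
      have h1 : algebraMap K Ω (algebraMap R K d) ≠ 0 := by
        intro h
        exact hdK ((algebraMap K Ω).injective (by rw [h, map_zero]))
      change (z0 : Ω) = (algebraMap K Ω (algebraMap R K d))⁻¹ * z
      rw [hzmul, inv_mul_cancel_left₀ h1]
    rw [hz0eq]
    exact mul_mem (inv_mem (IntermediateField.algebraMap_mem _ _))
      (IntermediateField.mem_adjoin_simple_self K zF)
  have : Module.IsTorsionFree R Ω := Module.isTorsionFree_iff_algebraMap_injective.2 hinjΩ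
  refine ⟨z, minpoly R z, (minpoly R z).natDegree, hzF, minpoly.monic hint,
    minpoly.irreducible hint, rfl, fun G => minpoly.isIntegrallyClosed_dvd_iff hint G, ?_, ?_⟩
  · intro x hx
    have hx' : (⟨x, hx⟩ : F) ∈ IntermediateField.adjoin K ({zF} : Set F) := by
      rw [hgen]; trivial
    have hzi : IsIntegral K zF := Algebra.IsIntegral.isIntegral zF
    rw [← IntermediateField.mem_toSubalgebra,
      IntermediateField.adjoin_simple_toSubalgebra_of_isAlgebraic hzi.isAlgebraic,
      Algebra.adjoin_singleton_eq_range_aeval] at hx'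
    obtain ⟨g, hg⟩ := hx'
    obtain ⟨b, hb, hbg⟩ := IsLocalization.integerNormalization_spec (nonZeroDivisors R) g
    refine ⟨IsLocalization.integerNormalization (nonZeroDivisors R) g, b,
      nonZeroDivisors.ne_zero hb, ?_⟩
    have h2 : Polynomial.aeval z g = x := by
      have h5 := congrArg (F.val) hg
      change F.val (Polynomial.aeval zF g) = x at h5
      rw [← Polynomial.aeval_algHom_apply] at h5
      exact h5
    have h3 : Polynomial.aeval z (IsLocalization.integerNormalization (nonZeroDivisors R) g)
        = Polynomial.aeval z ((IsLocalization.integerNormalization (nonZeroDivisors R) g).map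
          (algebraMap R K)) := by
      rw [Polynomial.aeval_map_algebraMap]
    rw [h3, hbg, ← algebraMap_smul K b g, map_smul, h2, Algebra.smul_def, mul_comm,
      ← IsScalarTower.algebraMap_apply R K Ω]
  · have hmK : minpoly K z = (minpoly R z).map (algebraMap R K) :=
      minpoly.isIntegrallyClosed_eq_field_fractions' K hint
    have hmF : minpoly K z = minpoly K zF :=
      (minpoly.algebraMap_eq (algebraMap F Ω).injective zF)
    have hsep : (minpoly K z).Separable := by
      rw [hmF]
      exact Algebra.IsSeparable.isSeparable K zF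
    have hspl : ((minpoly K z).map (algebraMap K Ω)).Splits := IsAlgClosed.splits _
    have hcard : Fintype.card ((minpoly K z).rootSet Ω) = (minpoly R z).natDegree := by
      rw [Polynomial.card_rootSet_eq_natDegree hsep hspl, hmK,
        (minpoly.monic hint).natDegree_map]
    have hmem : ∀ x ∈ (minpoly K z).rootSet Ω, x ∈ F := by
      rw [← IntermediateField.splits_iff_mem hspl, hmF]
      exact Normal.splits inferInstance zF
    let e : Fin (minpoly R z).natDegree ≃ (minpoly K z).rootSet Ω :=
      (Fintype.equivFinOfCardEq hcard).symm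
    refine ⟨fun i => (e i : Ω), fun i j hij => e.injective (Subtype.ext hij),
      fun i => hmem _ (e i).2, fun i => ?_⟩
    obtain ⟨w, hw⟩ : ∃ w : Ω, w = (e i : Ω) := ⟨_, rfl⟩
    have h4 : Polynomial.aeval w (minpoly K z) = 0 := by
      rw [hw]
      exact (Polynomial.mem_rootSet.1 (e i).2).2
    rw [hmK, Polynomial.aeval_map_algebraMap, hw] at h4
    exact h4

theorem PRE : PRE_stmt := by
  intro A Ω _ _ _ _ y hy Z p hp hps hZ
  let algR : Algebra A[X] Ω := ((Polynomial.aeval y : A[X] →ₐ[A] Ω) : A[X] →+* Ω).toAlgebra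
  let algK : Algebra A[X] A⟮y⟯ :=
    ((Polynomial.aeval (IntermediateField.AdjoinSimple.gen A y) : A[X] →ₐ[A] A⟮y⟯) :
      A[X] →+* A⟮y⟯).toAlgebra
  have hval : ∀ g : A[X], algebraMap A⟮y⟯ Ω (algebraMap A[X] A⟮y⟯ g) = Polynomial.aeval y g := by
    intro g
    change algebraMap A⟮y⟯ Ω (Polynomial.aeval (IntermediateField.AdjoinSimple.gen A y) g) = _
    rw [← Polynomial.aeval_algebraMap_apply]
    rfl
  have : IsScalarTower A[X] A⟮y⟯ Ω := by
    apply IsScalarTower.of_algebraMap_eq
    intro g
    rw [hval]
    rfl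
  have hinj : Function.Injective (algebraMap A[X] A⟮y⟯) := by
    intro g g' h
    have h1 := congrArg (algebraMap A⟮y⟯ Ω) h
    rw [hval, hval] at h1
    exact (transcendental_iff_injective.1 hy) h1
  have : FaithfulSMul A[X] A⟮y⟯ := (faithfulSMul_iff_algebraMap_injective _ _).2 hinj
  have : IsFractionRing A[X] A⟮y⟯ := by
    apply IsFractionRing.of_field
    intro w
    obtain ⟨r, s, hrs⟩ := (IntermediateField.mem_adjoin_simple_iff A (w : Ω)).1 w.2
    refine ⟨r, s, ?_⟩
    apply (algebraMap A⟮y⟯ Ω).injective
    rw [map_div₀, hval, hval]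
    exact hrs
  obtain ⟨z, P, m, h1, h2, h3, h4, h5, h6, ρ, h7, h8, h9⟩ := PRE_core (R := A[X]) Z p hp hps hZ
  have hadj : ∀ x : Ω, x ∈ IntermediateField.adjoin A (insert y (Z : Set Ω)) ↔
      x ∈ IntermediateField.adjoin A⟮y⟯ (Z : Set Ω) := by
    intro x
    have := IntermediateField.adjoin_adjoin_left A ({y} : Set Ω) (Z : Set Ω)
    rw [Set.insert_eq, ← this]
    exact Iff.rfl
  refine ⟨z, P, m, (hadj z).2 h1, h2, h3, h4, h5, ?_, ρ, h7, fun i => (hadj _).2 (h8 i), h9⟩
  intro x hx
  exact h6 x ((hadj x).1 hx)

end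

end Pool.Agent.helper70.QSD
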