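import Pool.Agent.helper70.QSD.SpecC

/-! Project qsd (MP_7a3aac_co, helper70), row PRS: the presentation. -/

set_option linter.unusedVariables false

namespace Pool.Agent.helper70.QSD

open Pool.Agent.helper53.AU
open scoped Classical IntermediateField Polynomial

noncomputable section

theorem PRS_stable (Φ : KS ≃+* KS) (A : Subfield KS) (hst : ∀ x ∈ A, Φ x ∈ A) (y₁ : KS)
    (hy₁ : Φ y₁ = y₁) (Z : Finset KS) (hZ : ∀ x ∈ Z, Φ x ∈ Z) :
    ∀ x ∈ IntermediateField.adjoin A (insert y₁ (Z : Set KS)),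
      Φ x ∈ IntermediateField.adjoin A (insert y₁ (Z : Set KS)) := by
  intro x hx
  have hmem : ∀ w ∈ (insert y₁ (Z : Set KS)),
      w ∈ IntermediateField.adjoin A (insert y₁ (Z : Set KS)) :=
    fun w hw => IntermediateField.subset_adjoin A _ hw
  induction hx using IntermediateField.adjoin_induction with
  | mem w hw =>
    rcases hw with hw | hw
    · rw [hw, hy₁]
      exact hmem _ (Set.mem_insert _ _)
    · exact hmem _ (Set.mem_insert_of_mem _ (hZ w hw))
  | algebraMap a =>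
    have := IntermediateField.algebraMap_mem
      (IntermediateField.adjoin A (insert y₁ (Z : Set KS))) (⟨Φ a, hst _ a.2⟩ : A)
    exact this
  | add u v _ _ hu hv =>
    rw [map_add]
    exact add_mem hu hv
  | inv u _ hu =>
    rw [map_inv₀]
    exact inv_mem hu
  | mul u v _ _ hu hv =>
    rw [map_mul]
    exact mul_mem hu hv

theorem PRS (hACL : ACL_stmt) (hEVR : EVR_stmt) (hGC1 : GC1_stmt) (hGC2 : GC2_stmt)
    (hPRE : PRE_stmt) : PRS_stmt := by
  intro Φ A hG y hy hΦy E hE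
  obtain ⟨J, y₁, hyJ, hΦy₁, hsep⟩ := hGC1 Φ A hG y hΦy E (fun x hx => (hE x hx).1)
  have hy₁A : y₁ ∉ A := fun h => hy (by rw [← hyJ]; exact pow_mem h _)
  have htr : Transcendental A y₁ := fun h => hy₁A (hG.acl _ h)
  obtain ⟨Z, p, hEZ, hZst, hpm, hps, hpZ⟩ :=
    hGC2 Φ A hG y₁ hΦy₁ E (fun x hx => ⟨hsep x hx, (hE x hx).2⟩)
  have : IsAlgClosed KS := hACL.1
  obtain ⟨z, P, m, hzF, hPm, hPi, hPd, hker, hfr, ρ, hρi, hρF, hρP⟩ :=
    hPRE A KS y₁ htr Z p hpm hps hpZ
  have hEv := hEVR.1 A KS y₁ z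
  have hst := PRS_stable Φ A hG.stb y₁ hΦy₁ Z hZst
  -- denominators
  have hfr' : ∀ x : KS, ∃ (G : A[X][X]) (h : A[X]), h ≠ 0 ∧
      (x ∈ IntermediateField.adjoin A (insert y₁ (Z : Set KS)) →
        x * Polynomial.aeval y₁ h = ev y₁ z G) := by
    intro x
    by_cases hx : x ∈ IntermediateField.adjoin A (insert y₁ (Z : Set KS))
    · obtain ⟨G, h, h1, h2⟩ := hfr x hx
      exact ⟨G, h, h1, fun _ => h2⟩
    · exact ⟨0, 1, one_ne_zero, fun h => absurd h hx⟩
  choose G0 h0 hh0 hG0 using hfr'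
  set T : Finset KS := (Finset.univ.image ρ) ∪ insert (Φ z) E with hT
  set h : A[X] := ∏ x ∈ T, h0 x with hh
  set Gx : KS → A[X][X] := fun x => G0 x * Polynomial.C (∏ x' ∈ T.erase x, h0 x') with hGx
  have hTF : ∀ x ∈ T, x ∈ IntermediateField.adjoin A (insert y₁ (Z : Set KS)) := by
    intro x hx
    rw [hT, Finset.mem_union, Finset.mem_insert] at hx
    rcases hx with hx | hx | hx
    · obtain ⟨i, _, rfl⟩ := Finset.mem_image.1 hx
      exact hρF i
    · rw [hx]
      exact hst z hzF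
    · exact IntermediateField.subset_adjoin A _ (Set.mem_insert_of_mem _ (hEZ hx))
  have hne : h ≠ 0 := Finset.prod_ne_zero_iff.2 (fun x _ => hh0 x)
  have hval : ∀ x ∈ T, ev y₁ z (Gx x) = x * Polynomial.aeval y₁ h := by
    intro x hx
    rw [hGx]
    simp only
    rw [hEv.2.2.1, hEv.2.2.2.1, ← hG0 x (hTF x hx), mul_assoc, ← map_mul,
      Finset.mul_prod_erase T h0 hx]
  have hhy : Polynomial.aeval y₁ h ≠ 0 := by
    intro h1
    exact htr ⟨h, hne, h1⟩
  have hρT : ∀ i, ρ i ∈ T := fun i =>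
    Finset.mem_union_left _ (Finset.mem_image_of_mem _ (Finset.mem_univ _))
  refine ⟨y₁, z, m, P, h, fun i => Gx (ρ i), Gx (Φ z), Gx, ?_⟩
  refine ⟨htr, hΦy₁, hPm, hPi, hPd, hne, hker, ?_, ?_, ?_, ?_⟩
  · intro i
    rw [← hker, hEVR.2.1 A KS y₁ z P (Gx (ρ i)) h m hPd.le hhy, hval _ (hρT i),
      mul_div_cancel_right₀ _ hhy, hρP, mul_zero]
  · intro i j hij hdvd
    rw [← hker, hEv.2.1, hval _ (hρT i), hval _ (hρT j), ← sub_mul] at hdvd
    rcases mul_eq_zero.1 hdvd with h1 | h1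
    · exact hij (hρi (sub_eq_zero.1 h1))
    · exact hhy h1
  · exact hval _ (Finset.mem_union_right _ (Finset.mem_insert_self _ _))
  · intro x hx
    exact hval _ (Finset.mem_union_right _ (Finset.mem_insert_of_mem hx))

end

end Pool.Agent.helper70.QSD
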